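import Pool.Agent.W955.LT.Fin
import Pool.Agent.W955.LT.Ker
import Pool.Agent.W955.LT.Inv
import Pool.Agent.W955.LT.Code1
import Pool.Agent.W976.LT.Cb
import Pool.Agent.W976.LT.Good
import Pool.Agent.W976.LT.Height
import Pool.Agent.W976.LT.Count
import Pool.Agent.W976.LT.Glue
import Pool.Agent.W976.LT.CodeB
import Pool.Agent.W465.LT.Concat
import Pool.Agent.W465.LT.Bridge
import Pool.Agent.W932.LT.Tape
import Pool.Agent.W903.LT.Main
import Pool.Agent.W903.LT.PMain

/-!
# A polynomial-time almost uniform sampler for lattice trees

Sketch.  A lattice tree containing the origin is coded by its set of addresses (words of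
directions).  An *object* is such a tree with at most 15 marked vertices; it has a canonical cut into
two objects (the point of attachment and the new root become marked): a cut which balances the
sizes, or the marks if there are 15 of them.  So the decomposition of an object with `n` vertices has
height `O(log n)`, hence polynomially many parts.  Random measures (pools of `N` weighted objects)
of height `r + 1` are made of two independent pools of height `r`: each new particle is a candidate
(an object with parts in the two pools) chosen with probability proportional to its weight.  The
random weight `M(x)` of every object `x` has expectation 1, and there is a conditional version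
(`x` is forced into the pools) with `E_x F = E (M(x) F)`.  A step of the Markov chain: from the tree
`x` build pools conditioned on `x`, and choose a new tree `y` from the final candidates.  The kernel
`E (M(x) M(y) / M(T))` is symmetric, and `M(x) M(y) / M(T) ≥ M(x) M(y) (2c - c² M(T))` gives
`K(x, y) ≥ 1 / (4 |T|)` as soon as the third moments satisfy `∑_z E (M(x) M(y) M(z)) ≤ C |T|
E (M(x) M(y))`.  This is proved by induction on the height: the correlations are caused by common
components, and the number of trees with `s` prescribed components `x_1, …, x_s` is at most
`poly(n)^s |T| / ∏ |T_{|x_i|}|`, because `t_a t_b ≤ poly(a + b) t_{a + b}` (concatenation of trees)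
and a tree with prescribed components is glued from `O(s)` trees.
-/

namespace Pool.Agent.Results.MP_047767_lc.LatticeTreeSampler

open Pool.Agent.W955.LT Pool.Agent.NPC.LT

/-- For the square, the hexagonal and the triangular lattice there is a polynomial-time almost
uniform sampler for lattice trees. -/
theorem result : ∀ k : Kind, Samplable k := by
  intro k
  have hT : S_trees := Pool.Agent.W976.LT.trees_main
  have hK : S_kids := Pool.Agent.W976.LT.kids_main
  have hG : S_good := Pool.Agent.W976.LT.good_main
  have hH : S_height := Pool.Agent.W976.LT.height_main hK hG
  have hL : S_lev := Pool.Agent.W976.LT.lev_main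
  have hR : S_root := Pool.Agent.W465.LT.root_main hK
  have hC : S_concat := Pool.Agent.W465.LT.concat_main hT hK hR
  have hCo : S_count := Pool.Agent.W976.LT.count hT hK hC (Pool.Agent.W976.LT.glue hT hK)
  have hCB : S_cb := Pool.Agent.W976.LT.cb hT hK Pool.Agent.W976.LT.place hCo
  have hC1 : S_code1 := code1_main
  have hC2 : S_code2 := Pool.Agent.W976.LT.code2 hK hC1
  have hPC : S_polyCode := Pool.Agent.NPC.LT.PCode.main hT hC1
  exact final hT hK hG hH hL hC1 hC2 hCB Pool.Agent.W465.LT.bridge_main
    Pool.Agent.W932.LT.tape_main Pool.Agent.W932.LT.run_main Pool.Agent.W932.LT.lvl_main inv_main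
    Pool.Agent.W932.LT.top_main gen_main hPC
    (Pool.Agent.NPC.LT.Samp.main hT hK hC1 hC2 hL Pool.Agent.W932.LT.run_main inv_main hPC) k

end Pool.Agent.Results.MP_047767_lc.LatticeTreeSampler
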